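import Pool.Agent.ETGP3.TRP

/-!
# D3 at one extremal pair implies the conjecture for `-1 = 1` (helper76, 52, 84; typed by helper98)

`G_x = {v : v V_x ⊆ Q_x}`. The lattice theorem needs only: for one element `y` of maximal rank and
every `b` of minimal rank outside `G_y` there is `b' ∈ G_b ∩ G_{b+y}` with `b + b' ∈ G_y`.
Transitivity (TR) is not needed: its instance is Lemma TR' (linkage only).
-/

set_option autoImplicit false
set_option linter.unusedSectionVars false
set_option linter.unusedSimpArgs false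

namespace Pool.Agent.ETGP3

open QS
open Pool.Agent.Helper58.PLine (QData)
open Pool.Agent.ETCP
open Pool.Agent.ETPR
open Pool.Agent.ETAL
open Pool.Agent.ETGP
open Pool.Agent.REG10 (InQ SRg RegE)

variable {V Q : Type} [AddCommGroup V] [Module (ZMod 2) V] {S : QData V Q}

/-- D3 at `(b, y)` with `b` of minimal rank outside `G_y` gives `Q_b ∩ Q_y ⊆ Q_{b+y}`
(any `y`, no transitivity) -/
theorem mem_of_d3 [Finite V] {y b b' : V} (hb : b ∉ GX S y)
    (hm : ∀ x, x ∉ GX S y → Nat.card (S.ann x) ≤ Nat.card (S.ann b))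
    (h1 : b' ∈ GX S b) (h2 : b' ∈ GX S (b + y)) (h3 : b + b' ∈ GX S y) :
    b ∈ GX S (b + y) := by
  have h4 : b' ∉ GX S y := by
    intro h
    apply hb
    have := (GX S y).add_mem h3 h
    rwa [add_assoc, ZModModule.add_self, add_zero] at this
  have h5 : b ∈ GX S b' := (card_le_of_GX h1).2 (hm b' h4)
  refine trp h5 h2 ?_
  rwa [← add_assoc, ZModModule.add_self, zero_add]

/-- **D3 at the extremal pairs makes an element of maximal rank regular** -/
theorem reg_of_d3 [Finite V] {y : V} (hy : ∀ x, Nat.card (S.ann y) ≤ Nat.card (S.ann x))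
    (h : ∀ b, b ∉ GX S y → (∀ x, x ∉ GX S y → Nat.card (S.ann x) ≤ Nat.card (S.ann b)) →
      ∃ b', b' ∈ GX S b ∧ b' ∈ GX S (b + y) ∧ b + b' ∈ GX S y) : SRg S y :=
  reg_of_M hy fun b hb hm => by
    obtain ⟨b', h1, h2, h3⟩ := h b hb hm
    exact mem_of_d3 hb hm h1 h2 h3

/-- **the conjecture (`-1 = 1`) from D3 at the extremal pairs of one element of maximal rank** -/
theorem etc_of_d3
    (h : ∀ (V Q : Type) [AddCommGroup V] [Module (ZMod 2) V] [Finite V] (S : QData V Q),
      S.e = 0 → ∃ y, (∀ x, Nat.card (S.ann y) ≤ Nat.card (S.ann x)) ∧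
        ∀ b, b ∉ GX S y → (∀ x, x ∉ GX S y → Nat.card (S.ann x) ≤ Nat.card (S.ann b)) →
          ∃ b', b' ∈ GX S b ∧ b' ∈ GX S (b + y) ∧ b + b' ∈ GX S y) :
    ∀ S : QStruct, Finite S.G → S.neg = 1 → ElemType S := by
  refine etc_of_reg fun V Q _ _ _ S he => ?_
  obtain ⟨y, h1, h2⟩ := h V Q S he
  exact ⟨y, reg_of_d3 h1 h2⟩

/-- the law D3 alone (no transitivity, no SUM) implies the conjecture for `-1 = 1` -/
theorem etc_of_D3
    (h : ∀ (V Q : Type) [AddCommGroup V] [Module (ZMod 2) V] [Finite V] (S : QData V Q),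
      S.e = 0 → ∀ x y, x ∈ (GX S x ⊓ GX S y) ⊔ GX S (x + y)) :
    ∀ S : QStruct, Finite S.G → S.neg = 1 → ElemType S := by
  refine etc_of_d3 fun V Q _ _ _ S he => ?_
  obtain ⟨y, -, hy⟩ := Set.exists_min_image (Set.univ : Set V)
    (fun x => Nat.card (S.ann x)) (Set.toFinite _) ⟨0, trivial⟩
  refine ⟨y, fun x => hy x trivial, fun b _ _ => ?_⟩
  obtain ⟨c, hc, b', hb', e⟩ := Submodule.mem_sup.1 (h V Q S he b y)
  have e' : b' = b + c := by rw [← e, add_comm c b', add_assoc, ZModModule.add_self, add_zero]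
  have e2 : b + b' = c := by rw [e', ← add_assoc, ZModModule.add_self, zero_add]
  refine ⟨b', ?_, hb', ?_⟩
  · rw [e']
    exact (GX S b).add_mem (self_mem_GX S b) hc.1
  · rw [e2]
    exact hc.2

end Pool.Agent.ETGP3
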