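import Pool.Agent.ETGP.Lat2

/-!
# Lemma TR' (helper76): `x → y`, `y → z` and `x + y → x + z` imply `x → z`

Here `x → y` means `x V_y ⊆ Q_y`, i.e. `x ∈ GX S y`. The proof uses linkage only (16 links); every
equality is derived in the set-valued quaternionic structure. Typed by helper98.
-/

set_option autoImplicit false
set_option linter.unusedSectionVars false
set_option linter.unusedSimpArgs false
set_option linter.unnecessarySeqFocus false

namespace Pool.Agent.ETGP3

open Pool.Agent.Helper58.PLine (QData)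
open Pool.Agent.ETCP
open Pool.Agent.ETPR
open Pool.Agent.ETAL
open Pool.Agent.ETGP
open Pool.Agent.REG10 (InQ SRg RegE)

variable {V Q : Type} [AddCommGroup V] [Module (ZMod 2) V] {S : QData V Q}


/-- **Lemma TR'** -/
theorem trp {x y z : V} (hxy : x ∈ GX S y) (hyz : y ∈ GX S z) (hw : x + y ∈ GX S (x + z)) :
    x ∈ GX S z := by
  intro g hg
  -- (1)
  obtain ⟨p, hp⟩ := hyz g hg
  -- (2)
  obtain ⟨q, y2, z2, -⟩ := link hp
  -- (3)
  obtain ⟨r, hr⟩ := hxy (g + q) y2
  -- (4)
  obtain ⟨s, x4, y4, -⟩ := link hr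
  -- (5) `y (g + r) = w (g + q)`
  have zq : S.q z (g + q) = S.q y g := by
    have e1 : S.q z (g + q) = S.q z q :=
      q_eq (hg.of_eq rfl (eo (by abel_nf <;> simp only [ch2, ch3, ch4, ch5, ch6, add_zero, zero_add])))
    rw [e1, hp]
    exact q_eq (z2.of_eq rfl (by rw [add_comm]))
  have e5 : S.q y (g + r) = S.q (x + z) (g + q) := by
    have a1 : S.q (g + q) x = S.q y r := by rw [S.symm, hr]
    have a2 : S.q (g + q) z = S.q y g := by rw [S.symm, zq]
    have a3 := ETC.add_common a1 a2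
    rw [S.symm (x + z), a3, add_comm g r]
  obtain ⟨t, y5, w5, -⟩ := link e5
  -- (6)
  obtain ⟨a, ha⟩ := hxy (r + s) y4
  -- (7)
  obtain ⟨b, hb⟩ := hxy (g + r + t) y5
  -- (8)
  obtain ⟨c, hc⟩ := hw (g + q + t) w5
  -- (9)
  have e9 : S.q x (g + q + r) = S.q y a := by
    rw [← ha]
    exact q_eq (x4.of_eq rfl (eo (by abel_nf <;> simp only [ch2, ch3, ch4, ch5, ch6, add_zero, zero_add])))
  obtain ⟨h, x9, y9, -⟩ := link e9
  -- (10)
  obtain ⟨k, x10, y10, -⟩ := link hb
  -- `w t = y t`
  have wt : S.q (x + z) t = S.q y t := by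
    rw [← q_eq w5, ← q_eq y5, e5]
  -- `y (a + b) = x (q + t)`
  have yab : S.q y (a + b) = S.q x (q + t) := by
    have a1 := ETC.add_common ha.symm hb.symm
    rw [a1]
    exact q_eq (x4.of_eq rfl (eo (by abel_nf <;> simp only [ch2, ch3, ch4, ch5, ch6, add_zero, zero_add])))
  -- `(x + y) (g + t) = x (q + t)`
  have xygt : S.q (x + y) (g + t) = S.q x (q + t) := by
    have a1 : S.q (g + t) y = S.q x (g + q) := by
      rw [S.symm, hr]
      exact q_eq (y5.of_eq rfl (eo (by abel_nf <;> simp only [ch2, ch3, ch4, ch5, ch6, add_zero, zero_add])))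
    have a2 : S.q (g + t) x = S.q x (g + t) := S.symm _ _
    have a3 := ETC.add_common a2 a1
    rw [S.symm (x + y), a3]
    congr 1
    exact (eo (by abel_nf <;> simp only [ch2, ch3, ch4, ch5, ch6, add_zero, zero_add]))
  -- link `w`, `x + y` at `w c`
  obtain ⟨c', w8, xy8, yz8⟩ := link hc.symm
  -- `w (q + c') = x (q + t)`
  have wqc : S.q (x + z) (q + c') = S.q x (q + t) := by
    have a1 : C S (y + z) q := by
      have : S.q y q = S.q z q := by rw [← q_eq y2, ← q_eq z2, hp]
      exact q_eq'_iff.1 this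
    have a2 : C S (y + z) c' := yz8.of_eq (eo (by abel_nf <;> simp only [ch2, ch3, ch4, ch5, ch6, add_zero, zero_add])) rfl
    have a3 : S.q (x + z) (q + c') = S.q (x + y) (q + c') :=
      q_eq' ((a1.add a2).of_eq (eo (by abel_nf <;> simp only [ch2, ch3, ch4, ch5, ch6, add_zero, zero_add])) rfl)
    rw [a3, ← xygt]
    exact q_eq (xy8.of_eq rfl (eo (by abel_nf <;> simp only [ch2, ch3, ch4, ch5, ch6, add_zero, zero_add])))
  -- `w (g + c' + t) = x (q + t)`
  have wgct : S.q (x + z) (g + c' + t) = S.q x (q + t) := by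
    rw [← wqc]
    exact q_eq (w5.of_eq rfl (eo (by abel_nf <;> simp only [ch2, ch3, ch4, ch5, ch6, add_zero, zero_add])))
  -- (11)
  have e11 : S.q y (g + r + a + b) = S.q (x + z) (g + c) := by
    have a1 : S.q (x + z) (g + c' + t) = S.q y (a + b) := by rw [wgct, yab]
    have a2 := ETC.add_common a1 wt
    have a3 : S.q (x + z) (g + c) = S.q (x + z) (g + c' + t + t) :=
      q_eq (w8.of_eq rfl (eo (by abel_nf <;> simp only [ch2, ch3, ch4, ch5, ch6, add_zero, zero_add])))
    rw [a3, a2]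
    exact q_eq (y5.of_eq rfl (eo (by abel_nf <;> simp only [ch2, ch3, ch4, ch5, ch6, add_zero, zero_add])))
  obtain ⟨m, y11, w11, -⟩ := link e11
  -- (12)
  obtain ⟨a', ha'⟩ := hxy (a + h) y9
  -- (13)
  obtain ⟨b', hb'⟩ := hxy (b + k) y10
  -- (14)
  obtain ⟨d, hd⟩ := hxy (g + r + a + b + m) y11
  -- `w (t + m) = y (t + m) = x (q + t)`
  have ytm : S.q y (t + m) = S.q x (q + t) := by
    rw [← yab]
    exact q_eq ((y5.add y11).of_eq rfl (eo (by abel_nf <;> simp only [ch2, ch3, ch4, ch5, ch6, add_zero, zero_add])))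
  have wtm : S.q (x + z) (t + m) = S.q x (q + t) := by
    have a1 : S.q (x + z) m = S.q y m := by rw [← q_eq w11, ← q_eq y11, e11]
    rw [← ytm]
    exact ETC.add_common wt a1
  -- (15)
  have ybd : S.q y (b + a' + b' + d) = S.q x (q + m) := by
    have a1 := ETC.add_common (ETC.add_common (ETC.add_common hb.symm ha'.symm) hb'.symm) hd.symm
    rw [a1]
    exact q_eq ((x9.add x10).of_eq rfl (eo (by abel_nf <;> simp only [ch2, ch3, ch4, ch5, ch6, add_zero, zero_add])))
  have e15 : S.q y (b + a' + b' + d) = S.q z (t + m) := by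
    have a1 : S.q (t + m) (x + z) = S.q x (q + t) := by rw [S.symm, wtm]
    have a2 : S.q (t + m) x = S.q x (t + m) := S.symm _ _
    have a3 := ETC.add_common a1 a2
    rw [ybd, S.symm z]
    have a4 : S.q (t + m) z = S.q (t + m) (x + z + x) := by
      congr 1
      exact (eo (by abel_nf <;> simp only [ch2, ch3, ch4, ch5, ch6, add_zero, zero_add]))
    rw [a4, a3]
    congr 1
    exact (eo (by abel_nf <;> simp only [ch2, ch3, ch4, ch5, ch6, add_zero, zero_add]))
  obtain ⟨n, y15, z15, -⟩ := link e15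
  -- (16)
  obtain ⟨u, hu⟩ := hyz (t + m + n) z15
  have yn : S.q y n = S.q x (q + m) := by rw [← q_eq y15, ybd]
  have zu : S.q z u = S.q x (t + m) := by
    rw [← hu]
    have a1 := ETC.add_common ytm yn
    rw [a1]
    congr 1
    exact (eo (by abel_nf <;> simp only [ch2, ch3, ch4, ch5, ch6, add_zero, zero_add]))
  -- `w (q + m) = x (g + q + t)`
  have wqm : S.q (x + z) (q + m) = S.q x (g + q + t) := by
    have a1 : S.q (x + z) (q + t) = S.q x g := by
      have b1 : S.q (x + z) (q + t) = S.q (x + z) g := q_eq (w5.of_eq rfl (eo (by abel_nf <;> simp only [ch2, ch3, ch4, ch5, ch6, add_zero, zero_add])))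
      rw [b1]
      exact q_eq' (hg.of_eq (eo (by abel_nf <;> simp only [ch2, ch3, ch4, ch5, ch6, add_zero, zero_add])) rfl)
    have a2 := ETC.add_common wqc a1
    have a3 : S.q (x + z) (q + m) = S.q (x + z) (q + c' + (q + t)) :=
      q_eq (((w11.add w8).add w5).of_eq rfl (eo (by abel_nf <;> simp only [ch2, ch3, ch4, ch5, ch6, add_zero, zero_add])))
    rw [a3, a2]
    congr 1
    exact (eo (by abel_nf <;> simp only [ch2, ch3, ch4, ch5, ch6, add_zero, zero_add]))
  have zqm : S.q z (q + m) = S.q x (g + t + m) := by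
    have a1 : S.q (q + m) (x + z) = S.q x (g + q + t) := by rw [S.symm, wqm]
    have a2 : S.q (q + m) x = S.q x (q + m) := S.symm _ _
    have a3 := ETC.add_common a1 a2
    have a4 : S.q (q + m) z = S.q (q + m) (x + z + x) := by
      congr 1
      exact (eo (by abel_nf <;> simp only [ch2, ch3, ch4, ch5, ch6, add_zero, zero_add]))
    rw [S.symm z, a4, a3]
    congr 1
    exact (eo (by abel_nf <;> simp only [ch2, ch3, ch4, ch5, ch6, add_zero, zero_add]))
  have fin := ETC.add_common zqm zu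
  refine ⟨q + m + u, ?_⟩
  rw [fin]
  congr 1
  exact (eo (by abel_nf <;> simp only [ch2, ch3, ch4, ch5, ch6, add_zero, zero_add]))

end Pool.Agent.ETGP3
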